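import Pool.Agent.H35.OT.Fin

set_option autoImplicit false

namespace Pool.Agent.Results.MP_17d720_ag.BallsAndRankTwoTubes

open Polynomial NumberField IsDedekindDomain Pool.Agent.H7.OR Pool.Agent.H35.OT

/-- Positive density of ordinary reduction for abelian varieties whose factors have multiplication by
totally real or CM fields and Hermitian symmetric domains which are balls or tube domains of rank at
most two. Let `K` be a number field, `L` a finite Galois extension and `s ∈ Gal(L/K)`. Let `E k` be
finitely many number fields, totally real or CM, with types `(m k, r k)` as in `IsType` relative to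
`s`. Let `W v` be the characteristic polynomials of the Frobenius elements on the first cohomology of
an abelian variety of dimension `g`: at the places `v` of prime norm outside a finite set whose
Frobenius element generates `⟨s⟩` the polynomial `W v` is the product of the norms of polynomials
`P k` over `E k` as in `IsFactor`, for a level `N` which is large in terms of the types. Then the
places `v` of prime norm `p` at which the middle coefficient of `W v` is not divisible by `p`, that is
at which the reduction is ordinary, have positive lower density. -/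
theorem result {K L κ : Type} [Field K] [NumberField K] [Field L] [NumberField L] [Algebra K L]
    [IsGalois K L] [Fintype κ] {E : κ → Type} [∀ k, Field (E k)] [∀ k, NumberField (E k)]
    (s : L ≃ₐ[K] L) (ι : ∀ k, E k →+* E k) (m j : κ → ℕ) (r : ∀ k, (E k →+* L) → ℕ)
    (h : ∀ k, IsType s (ι k) (m k) (j k) (r k)) (N : ℕ)
    (hN : ∀ k, 2 * (m k).choose (j k) ^ Module.finrank ℚ (E k) < N)
    (g : ℕ) (hg : 2 * g = ∑ k, m k * Module.finrank ℚ (E k))
    (S : Set (HeightOneSpectrum (𝓞 K))) (hS : S.Finite) (W : HeightOneSpectrum (𝓞 K) → ℤ[X])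
    (hW : ∀ v ∉ S, (plNorm v).Prime → ∀ (Q : Ideal (𝓞 L)) (φ : L ≃ₐ[K] L), IsFrob v Q φ →
      Subgroup.zpowers φ = Subgroup.zpowers s → N ∣ plNorm v - 1 ∧
      ∃ P : ∀ k, (𝓞 (E k))[X], (∀ k, IsFactor (plNorm v) N (m k) Q (r k) (P k)) ∧
        (W v).map (Int.castRingHom ℂ) =
          ∏ k, ∏ τ : E k →+* ℂ, (P k).map (τ.comp (algebraMap (𝓞 (E k)) (E k)))) :
    PosDensity {v : HeightOneSpectrum (𝓞 K) | v ∉ S ∧ (plNorm v).Prime ∧
      ¬ ((plNorm v : ℕ) : ℤ) ∣ (W v).coeff g} :=
  (fin_main s ι m j r h N hN g hg S hS W hW).2

end Pool.Agent.Results.MP_17d720_ag.BallsAndRankTwoTubes
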