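import Pool.Agent.H46.OP.Core
import Pool.Agent.H7.OP.ResB

/-!
# MP_17d720_ag: ordinary primes of modular forms of weight `≥ 3` and all levels

`Γ ≤ SL₂(ℤ)` has finite index (congruence or not) and contains `T^w = [[1,w],[0,1]]`, `w ≥ 1`; `g` is a modular form
(Mathlib's `ModularForm`, cuspidal or not) of integral weight `k ≥ 3` for `Γ`, whose q-expansion `F = ∑ a_n q^n`,
`q = exp(2 π i z / w)`, has coefficients in the ring of integers `O` of a number field `E` (embedded in `ℂ` by `σ`), with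
`a_n ≠ 0` for some `n ≥ 1`.

* `PosLower P` : positive lower density of `P` among the primes;
* `tau n` : the coefficient of `q^n` in `q ∏_(i ≤ n) (1 - q^i)^24` (Ramanujan's function).
-/

open PowerSeries UpperHalfPlane ModularForm MatrixGroups CongruenceSubgroup NumberField
open Pool.Agent.H85.OT

namespace Pool.Agent.Results.MP_17d720_ag.OrdinaryPrimes

theorem result :
    (∀ (E : Type) [Field E] [NumberField E] (σ : E →+* ℂ) (Γ : Subgroup SL(2, ℤ))
      [Γ.FiniteIndex] (w : ℕ), 0 < w → ModularGroup.T ^ w ∈ Γ → ∀ k : ℕ, 3 ≤ k →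
      ∀ (g : ModularForm (Γ : Subgroup (GL (Fin 2) ℝ)) (k : ℤ)) (F : (𝓞 E)⟦X⟧),
        qExpansion (w : ℝ) (g : ℍ → ℂ) = PowerSeries.map (σ.comp (algebraMap (𝓞 E) E)) F →
        (∃ n, 1 ≤ n ∧ PowerSeries.coeff n F ≠ 0) →
        -- (A) all non-constant modular forms
        PosLower (fun p => ∃ m : ℕ, 1 ≤ m ∧ ¬ ((p : 𝓞 E) ∣ PowerSeries.coeff (p * m) F)) ∧
        -- (B) eigenforms of the Hecke operators `T_p`, `p ∤ N`, with eigenvalues `lam p`
        ∀ N : ℕ, 1 ≤ N → ∀ lam χ : ℕ → 𝓞 E,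
          (∀ p : ℕ, p.Prime → ¬ p ∣ N → ∀ n : ℕ, 1 ≤ n → PowerSeries.coeff (p * n) F =
            lam p * PowerSeries.coeff n F - χ p * (p : 𝓞 E) ^ (k - 1) *
              (if p ∣ n then PowerSeries.coeff (n / p) F else 0)) →
          PosLower (fun p => ¬ (p : 𝓞 E) ∣ lam p) ∧
          -- (B+) if all conjugates of the eigenvalues are twists: ordinary at all primes above `p`
          (IsGalois ℚ E → (∀ p : ℕ, p.Prime → ¬ p ∣ N → ∀ s : E ≃ₐ[ℚ] E,
              ∃ u : 𝓞 E, IsUnit u ∧ s (lam p : E) = (u : E) * (lam p : E)) →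
            PosLower (fun p => ∀ P : Ideal (𝓞 E), P.IsPrime → (p : 𝓞 E) ∈ P → lam p ∉ P))) ∧
    -- (C) Ramanujan's function
    PosLower (fun p => ¬ (p : ℤ) ∣ tau p) :=
  Pool.Agent.H7.OP.res_of_core Pool.Agent.H46.OP.core

end Pool.Agent.Results.MP_17d720_ag.OrdinaryPrimes
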