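import Pool.Agent.H35.OT.PrFin
import Pool.Agent.H35.OT.PrDefs

set_option autoImplicit false

namespace Pool.Agent.Results.MP_17d720_ag.PRankRealMultiplication

open Polynomial NumberField IsDedekindDomain Pool.Agent.H7.OR Pool.Agent.H35.OT

/-- Positive density of large `p`-rank with real multiplication. Let `K` be a number field, `L` a finite
Galois extension and `s ∈ Gal(L/K)`. Let `W v` be the characteristic polynomials, of degree `b`, of the
Frobenius elements on the first cohomology of an abelian variety which over the fixed field of `s` is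
isogenous to a product of abelian varieties with real multiplication by the totally real fields `E k`,
of rank `m k` over `E k`, with rational `N`-torsion. Let all orbits of `⟨s⟩` on the embeddings of
`E k` in `L` have at least `f k` elements. Then the places `v` of prime norm `p` such that the `p`-rank,
the number of roots of `W v` which are units at `p`, is at least
`∑ k, prBound [E k : ℚ] (f k) (m k)` have positive lower density. -/
theorem result {K L κ : Type} [Field K] [NumberField K] [Field L] [NumberField L] [Algebra K L]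
    [IsGalois K L] [Fintype κ] {E : κ → Type} [∀ k, Field (E k)] [∀ k, NumberField (E k)]
    (s : L ≃ₐ[K] L) (m f : κ → ℕ)
    (hE : ∀ k, Nat.card (E k →+* L) = Module.finrank ℚ (E k))
    (hreal : ∀ k, ∀ (τ : E k →+* ℂ) (x : E k), (starRingEnd ℂ) (τ x) = τ x)
    (hf : ∀ k, ∀ σ : E k →+* L, f k ≤ (embOrbit s σ).ncard) (N : ℕ)
    (hN : ∀ k, ∀ j ≤ 2, 2 * (m k).choose j ^ Module.finrank ℚ (E k) < N) (b T : ℕ)
    (hb : b = ∑ k, m k * Module.finrank ℚ (E k))
    (hT : T = ∑ k, prBound (Module.finrank ℚ (E k)) (f k) (m k))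
    (S : Set (HeightOneSpectrum (𝓞 K))) (hS : S.Finite) (W : HeightOneSpectrum (𝓞 K) → ℤ[X])
    (hW : ∀ v ∉ S, (plNorm v).Prime → ∀ (Q : Ideal (𝓞 L)) (φ : L ≃ₐ[K] L), IsFrob v Q φ →
      Subgroup.zpowers φ = Subgroup.zpowers s → N ∣ plNorm v - 1 ∧
      ∃ P : ∀ k, (𝓞 (E k))[X], (∀ k, IsWeil (plNorm v) N (m k) 1 (P k)) ∧
        (W v).map (Int.castRingHom ℂ) =
          ∏ k, ∏ τ : E k →+* ℂ, (P k).map (τ.comp (algebraMap (𝓞 (E k)) (E k)))) :
    PosDensity {v : HeightOneSpectrum (𝓞 K) | v ∉ S ∧ (plNorm v).Prime ∧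
      ∃ i, i + T ≤ b ∧ ¬ ((plNorm v : ℕ) : ℤ) ∣ (W v).coeff i} :=
  (pr_fin s m f hE hreal hf N hN b T hb hT S hS W hW).2

end Pool.Agent.Results.MP_17d720_ag.PRankRealMultiplication
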