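import Pool.Agent.H32.CY.Twist

/-!
# MP_17d720_ag: a rigid Calabi-Yau threefold and its quadratic twists have ordinary reduction at a positive
proportion of the primes

`d` is a nonzero integer and `N_p` the number of points over `F_p` of the affine threefold
`d w² = x y z (x+1) (z+1) (x+y) (y+z)`, the chart `t = 1` of the double cover
`d w² = x y z t (x+y) (y+z) (z+t) (t+x)` of `P³` branched along eight planes, whose crepant resolution is a rigid
Calabi-Yau threefold.  For `p ∤ 2d` one has `N_p ≡ - a_p` mod `p`, `a_p` the trace of Frobenius on `H³`, so that the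
reduction at `p` is ordinary exactly if `p ∤ N_p`.
-/

open Pool.Agent.H85.OT

namespace Pool.Agent.Results.MP_17d720_ag.RigidCalabiYau

theorem result :
    ∀ d : ℤ, d ≠ 0 →
      PosLower (fun p => ¬ p ∣ Nat.card {s : ZMod p × ZMod p × ZMod p × ZMod p //
        (d : ZMod p) * s.2.2.2 ^ 2 = s.1 * s.2.1 * s.2.2.1 * (s.1 + 1) * (s.2.2.1 + 1) *
          (s.1 + s.2.1) * (s.2.1 + s.2.2.1)}) :=
  Pool.Agent.H32.CY.cy_ordinary_twist

end Pool.Agent.Results.MP_17d720_ag.RigidCalabiYau
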